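import Pool.Agent.H70.RG.HBK

/-! Row ECVL of the board reg (MP_2697e3_an): convolutions on a ball. -/

namespace Pool.Agent.H70.RG

open MeasureTheory Metric Set Filter Topology Pool.Agent.H87.SN
open scoped ContDiff

theorem pf_CVL (hC : T_CVD) : T_CVL := by
  intro n F _ _ _ k v x₀ r t hr ht hk hs hv
  obtain ⟨v', hv'⟩ : ∃ v' : E n → F, v' = (closedBall x₀ (r + t)).indicator v := ⟨_, rfl⟩
  have hint : Integrable v' := by
    rw [hv', integrable_indicator_iff measurableSet_closedBall]
    exact hv.integrableOn_compact (isCompact_closedBall _ _)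
  have hin : ∀ x ∈ ball x₀ r, ∀ y : E n, ‖y‖ ≤ t → x - y ∈ closedBall x₀ (r + t) := by
    intro x hx y hy
    rw [mem_closedBall, dist_eq_norm]
    rw [mem_ball, dist_eq_norm] at hx
    have h1 : x - y - x₀ = (x - x₀) - y := by abel
    rw [h1]
    refine (norm_sub_le _ _).trans ?_
    linarith
  have hcv : ∀ k' : E n → ℝ, (∀ x, k' x ≠ 0 → ‖x‖ ≤ t) → ∀ x ∈ ball x₀ r,
      cv k' v x = cv k' v' x := by
    intro k' hs' x hx
    unfold cv
    refine integral_congr_ae (Eventually.of_forall fun y => ?_)
    change k' (x - y) • v y = k' (x - y) • v' y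
    by_cases hy : k' (x - y) = 0
    · rw [hy, zero_smul, zero_smul]
    · have h1 := hin x hx (x - y) (hs' _ hy)
      rw [sub_sub_cancel] at h1
      rw [hv', indicator_of_mem h1]
  obtain ⟨h1, h2⟩ := hC n F k v' hk (cpt_supp hs) hint.locallyIntegrable
  have hev : ∀ x ∈ ball x₀ r, cv k v =ᶠ[𝓝 x] cv k v' := by
    intro x hx
    filter_upwards [isOpen_ball.mem_nhds hx] with y hy
    exact hcv k hs y hy
  refine ⟨fun x hx => ?_, fun x hx => ⟨fun e => ?_, ?_, ?_⟩⟩
  · exact (h1.contDiffAt.congr_of_eventuallyEq (hev x hx)).contDiffWithinAt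
  · rw [(hev x hx).fderiv_eq, h2 x e,
      hcv _ (fun z hz => der_supp hs e z hz) x hx]
  · unfold cv
    rw [← integral_sub_left_eq_self (fun y => k y • v (x - y)) volume x]
    refine integral_congr_ae (Eventually.of_forall fun y => ?_)
    change k (x - y) • v y = k (x - y) • v (x - (x - y))
    rw [sub_sub_cancel]
  · have h3 : (fun y => k y • v (x - y)) = fun y => k y • v' (x - y) := by
      funext y
      by_cases hy : k y = 0
      · rw [hy, zero_smul, zero_smul]
      · rw [hv', indicator_of_mem (hin x hx y (hs y hy))]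
    rw [h3]
    obtain ⟨C, hC'⟩ : ∃ C, ∀ y, ‖k y‖ ≤ C :=
      (cpt_supp hs).exists_bound_of_continuous hk.continuous
    exact (hint.comp_sub_left x).bdd_smul C hk.continuous.aestronglyMeasurable
      (Eventually.of_forall hC')

end Pool.Agent.H70.RG
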