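import Pool.Agent.H70.RG.Targets
import Pool.Agent.H86.RG.Targets

/-! Board reg (MP_2697e3_an), part E: the classes of Pool.Agent.H86.RG and those of Pool.Agent.H70.RG. -/

namespace Pool.Agent.H70.RG

open MeasureTheory Metric Set Filter Topology Pool.Agent.H87.SN
open scoped ContDiff

namespace Cnv

variable {n : ℕ}

theorem LH_of {v : E n → ℝ} {U : Set (E n)} (h : LH v U) : ∀ x ∈ U, H86.RG.LH v x := by
  intro x hx
  obtain ⟨r, C, γ, hr, hC, hγ, hγ1, hb, h1⟩ := h x hx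
  exact ⟨γ, C, r, hγ, hr, fun y hy z hz => h1 y hy z hz⟩

theorem of_LH {v : E n → ℝ} {U : Set (E n)} (hU : IsOpen U) (h : ∀ x ∈ U, H86.RG.LH v x) :
    LH v U := by
  intro x hx
  obtain ⟨γ, C, r, hγ, hr, h1⟩ := h x hx
  obtain ⟨s, hs, hsU⟩ := Metric.isOpen_iff.1 hU x hx
  refine ⟨min (min r s) (1 / 2), |C|, min γ 1, by positivity, abs_nonneg _, by positivity,
    min_le_right _ _, (ball_subset_ball ((min_le_left _ _).trans (min_le_right _ _))).trans hsU,
    fun y hy z hz => ?_⟩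
  have hyr : y ∈ ball x r := ball_subset_ball ((min_le_left _ _).trans (min_le_left _ _)) hy
  have hzr : z ∈ ball x r := ball_subset_ball ((min_le_left _ _).trans (min_le_left _ _)) hz
  have hy2 : dist y x < 1 / 2 := (mem_ball.1 hy).trans_le (min_le_right _ _)
  have hz2 : dist z x < 1 / 2 := (mem_ball.1 hz).trans_le (min_le_right _ _)
  have hd : ‖y - z‖ < 1 := by
    rw [← dist_eq_norm]
    have := dist_triangle_right y z x
    linarith
  rw [Real.norm_eq_abs]
  refine (h1 y hyr z hzr).trans ?_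
  rcases (norm_nonneg (y - z)).eq_or_lt with h0 | h0
  · rw [← h0, Real.zero_rpow hγ.ne', Real.zero_rpow (by positivity)]
    simp
  · have h2 : ‖y - z‖ ^ γ ≤ ‖y - z‖ ^ (min γ 1) :=
      Real.rpow_le_rpow_of_exponent_ge h0 hd.le (min_le_left _ _)
    calc C * ‖y - z‖ ^ γ ≤ |C| * ‖y - z‖ ^ γ :=
          mul_le_mul_of_nonneg_right (le_abs_self C) (Real.rpow_nonneg h0.le _)
      _ ≤ _ := mul_le_mul_of_nonneg_left h2 (abs_nonneg _)

theorem iff_HH {U : Set (E n)} (hU : IsOpen U) : ∀ (j : ℕ) (v : E n → ℝ),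
    H86.RG.HH j v U ↔ HH j v U := by
  intro j
  induction j with
  | zero => exact fun v => ⟨of_LH hU, LH_of⟩
  | succ j ih =>
    intro v
    refine and_congr Iff.rfl (forall_congr' fun i => ?_)
    exact ih (fun x => fderiv ℝ v x (bv i))

theorem mono_HH : ∀ (j : ℕ) (v : E n → ℝ) (U V : Set (E n)), V ⊆ U → H86.RG.HH j v U →
    H86.RG.HH j v V := by
  intro j
  induction j with
  | zero => exact fun v U V hV h x hx => h x (hV hx)
  | succ j ih => exact fun v U V hV h => ⟨fun x hx => h.1 x (hV hx), fun i => ih _ U V hV (h.2 i)⟩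

theorem local_HH : ∀ (j : ℕ) (v : E n → ℝ) (U : Set (E n)),
    (∀ x ∈ U, ∃ V : Set (E n), IsOpen V ∧ x ∈ V ∧ H86.RG.HH j v V) → H86.RG.HH j v U := by
  intro j
  induction j with
  | zero =>
    intro v U h x hx
    obtain ⟨V, -, hxV, hV⟩ := h x hx
    exact hV x hxV
  | succ j ih =>
    intro v U h
    refine ⟨fun x hx => ?_, fun i => ih _ U fun x hx => ?_⟩
    · obtain ⟨V, -, hxV, hV⟩ := h x hx
      exact hV.1 x hxV
    · obtain ⟨V, hVo, hxV, hV⟩ := h x hx
      exact ⟨V, hVo, hxV, hV.2 i⟩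

theorem contDiff_HH {F : Type} [NormedAddCommGroup F] [NormedSpace ℝ F] (h0 : T_HMO) {U : Set (E n)}
    (hU : IsOpen U) : ∀ (j : ℕ) (v : E n → F), HH j v U → ContDiffOn ℝ j v U := by
  intro j
  induction j with
  | zero =>
    intro v h
    exact contDiffOn_zero.2 ((h0 n F 0 v U hU).2 h)
  | succ j ih =>
    intro v h
    rw [Nat.cast_add, Nat.cast_one, contDiffOn_succ_iff_fderiv_of_isOpen hU]
    refine ⟨fun x hx => (h.1 x hx).differentiableWithinAt, by simp, ?_⟩
    have key : fderiv ℝ v = fun x => ∑ i : Fin n, ContinuousLinearMap.smulRightL ℝ (E n) F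
        (EuclideanSpace.proj i : E n →L[ℝ] ℝ) (fderiv ℝ v x (bv i)) := by
      funext x
      ext1 w
      rw [ContinuousLinearMap.sum_apply]
      have hw : w = ∑ i : Fin n, (w i) • (bv i : E n) := by
        ext j
        simp [bv, Pi.single_apply]
      conv_lhs => rw [hw]
      rw [map_sum]
      refine Finset.sum_congr rfl fun i _ => ?_
      rw [map_smul]
      rfl
    rw [key]
    refine ContDiffOn.sum fun i _ => ?_
    exact (ContinuousLinearMap.contDiff _).comp_contDiffOn (ih _ (h.2 i))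

end Cnv

/-- The elementary properties. -/
theorem con_HHA (h0 : T_HLO) (h1 : T_HMO) (h2 : T_HCD) : H86.RG.T_HHA := by
  intro n
  refine ⟨fun j v w U hU hvw h => ?_, Cnv.mono_HH, fun j v U hU h => ?_, fun j v U hU h => ?_,
    fun j v U hU h => ?_, Cnv.local_HH⟩
  · rw [Cnv.iff_HH hU] at h ⊢
    exact (h0 n ℝ j).2.1 v w U hU hvw h
  · rw [Cnv.iff_HH hU]
    exact (h2 n ℝ v U hU).2 h j
  · rw [Cnv.iff_HH hU] at h ⊢
    exact (h1 n ℝ j v U hU).1 h
  · rw [Cnv.iff_HH hU] at h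
    exact Cnv.contDiff_HH h1 hU j v h

/-- Sums and products. -/
theorem con_HHM (h1 : T_HAL) (h2 : T_HBI) : H86.RG.T_HHM := by
  intro n j v w U hU hv hw
  rw [Cnv.iff_HH hU] at hv hw
  simp only [Cnv.iff_HH hU]
  refine ⟨(h1 n ℝ ℝ j U hU).1 v w hv hw, ?_, fun c => ?_⟩
  · exact h2 n ℝ ℝ ℝ (ContinuousLinearMap.mul ℝ ℝ) j U v w hU hv hw
  · exact (h1 n ℝ ℝ j U hU).2.2 (c • ContinuousLinearMap.id ℝ ℝ) v hv

/-- Composition with a function which is smooth on an open set. -/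
theorem con_HHC (h0 : T_HLO) (h1 : T_HMO) (h2 : T_HAL) (h3 : T_HCO) : H86.RG.T_HHC := by
  intro n m j Φ V u U hU hV hΦ huV hu
  rw [Cnv.iff_HH hU]
  have hu' : HH j u U := by
    have key : u = fun x => ∑ a : Fin m, (ContinuousLinearMap.smulRightL ℝ ℝ (E m)
        (ContinuousLinearMap.id ℝ ℝ) (bv a)) (u x a) := by
      funext x
      ext b
      simp [bv, Pi.single_apply]
    rw [key]
    refine (h2 n (E m) (E m) j U hU).2.1 m _ fun a => ?_
    have h4 := (Cnv.iff_HH hU j (fun x => u x a)).1 (hu a)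
    exact (h2 n ℝ (E m) j U hU).2.2 (ContinuousLinearMap.smulRightL ℝ ℝ (E m)
        (ContinuousLinearMap.id ℝ ℝ) (bv a)) _ h4
  refine (h0 n ℝ j).2.2.1 _ U fun x hx => ?_
  obtain ⟨ρ, hρ, hρV⟩ := Metric.isOpen_iff.1 hV (u x) (huV x hx)
  obtain ⟨χ, hχ⟩ : ∃ χ : ContDiffBump (u x), χ = ⟨ρ / 4, ρ / 2, by positivity, by linarith⟩ :=
    ⟨_, rfl⟩
  have hts : tsupport (fun p => χ p) ⊆ V := by
    rw [χ.tsupport_eq, hχ]
    exact (closedBall_subset_ball (by linarith)).trans hρV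
  have hsm : ContDiff ℝ ∞ (fun p => χ p * Φ p) := by
    rw [contDiff_iff_contDiffAt]
    intro p
    by_cases hp : p ∈ tsupport (fun p => χ p)
    · exact χ.contDiff.contDiffAt.mul (hΦ.contDiffAt (hV.mem_nhds (hts hp)))
    · have h5 : (fun p => χ p * Φ p) =ᶠ[𝓝 p] fun _ => (0 : ℝ) := by
        filter_upwards [notMem_tsupport_iff_eventuallyEq.1 hp] with y hy
        simp only [Pi.zero_apply] at hy
        rw [hy, zero_mul]
      exact contDiffAt_const.congr_of_eventuallyEq h5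
  have hcont : ContinuousOn u U := (h1 n (E m) j u U hU).2 hu'
  obtain ⟨s, hs, hsU⟩ := Metric.isOpen_iff.1 hU x hx
  have hnb : u ⁻¹' (ball (u x) (ρ / 4)) ∈ 𝓝 x :=
    (hcont.continuousAt (hU.mem_nhds hx)).preimage_mem_nhds (ball_mem_nhds _ (by positivity))
  obtain ⟨s', hs', hsu⟩ := Metric.mem_nhds_iff.1 hnb
  have hsub : ball x (min s s') ⊆ U := (ball_subset_ball (min_le_left _ _)).trans hsU
  refine ⟨min s s', by positivity, hsub, ?_⟩
  have h6 : HH j u (ball x (min s s')) := (h0 n (E m) j).1 u U _ isOpen_ball hsub hu'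
  have h7 := h3 n j _ (isOpen_ball (x := x) (ε := min s s')) (E m) ℝ (fun p => χ p * Φ p) u hsm h6
  refine (h0 n ℝ j).2.1 _ _ _ isOpen_ball (fun y hy => ?_) h7
  have h8 : u y ∈ closedBall (u x) (ρ / 4) :=
    ball_subset_closedBall (hsu (ball_subset_ball (min_le_right _ _) hy))
  have h9 : χ (u y) = 1 := χ.one_of_mem_closedBall (by rw [hχ]; exact h8)
  change χ (u y) * Φ (u y) = Φ (u y)
  rw [h9, one_mul]

/-- Linear regularity. -/
theorem con_LRG (h0 : T_HAL) (h1 : T_BOO) : H86.RG.T_LRG := by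
  intro n j v g U _ hU hv hg hw
  rw [Cnv.iff_HH hU] at hg ⊢
  have h2 : HH j (fun x => - g x) U := by
    have := (h0 n ℝ ℝ j U hU).2.2 (- ContinuousLinearMap.id ℝ ℝ) g hg
    simpa using this
  refine h1 n ℝ U hU j v (fun x => - g x) hv h2 fun ψ hψ => ?_
  have h3 := hw ψ hψ
  have h4 : ∫ x, lp ψ x • v x = ∫ x, v x * H86.RG.lap ψ x :=
    integral_congr_ae (Eventually.of_forall fun x => mul_comm _ _)
  rw [h4, h3, ← integral_neg]
  refine integral_congr_ae (Eventually.of_forall fun x => ?_)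
  simp only [smul_eq_mul]
  ring

end Pool.Agent.H70.RG
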