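import Pool.Agent.H70.RG.Targets

/-! Row EHBK of the board reg (MP_2697e3_an): bounds for the convolution with the scaled kernel. -/

namespace Pool.Agent.H70.RG

open MeasureTheory Metric Set Filter Topology Pool.Agent.H87.SN
open scoped ContDiff

section Kernel

variable {n : ℕ}

theorem sc_smooth {a : ℤ} {t : ℝ} {κ : E n → ℝ} (h : ContDiff ℝ ∞ κ) : ContDiff ℝ ∞ (sc a t κ) := by
  unfold sc
  exact contDiff_const.mul (h.comp (contDiff_const_smul _))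

theorem sc_supp {a : ℤ} {t : ℝ} {κ : E n → ℝ} (ht : 0 < t) (h : ∀ x, κ x ≠ 0 → ‖x‖ ≤ 1) (x : E n)
    (hx : sc a t κ x ≠ 0) : ‖x‖ ≤ t := by
  unfold sc at hx
  have h1 := h (t⁻¹ • x) (right_ne_zero_of_mul hx)
  rw [norm_smul, norm_inv, Real.norm_of_nonneg ht.le, inv_mul_le_iff₀ ht, mul_one] at h1
  exact h1

theorem sc_fderiv {a : ℤ} {t : ℝ} {κ : E n → ℝ} (ht : 0 < t) (h : ContDiff ℝ ∞ κ) (x e : E n) :
    fderiv ℝ (sc a t κ) x e = sc (a - 1) t (fun z => fderiv ℝ κ z e) x := by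
  have h1 : HasFDerivAt κ (fderiv ℝ κ (t⁻¹ • x)) (t⁻¹ • x) :=
    (h.differentiable (by simp)).differentiableAt.hasFDerivAt
  have h2 : HasFDerivAt (fun x : E n => t⁻¹ • x) (t⁻¹ • ContinuousLinearMap.id ℝ (E n)) x :=
    (ContinuousLinearMap.id ℝ (E n)).hasFDerivAt.const_smul t⁻¹
  have h3 : HasFDerivAt (sc a t κ)
      (t ^ a • ((fderiv ℝ κ (t⁻¹ • x)).comp (t⁻¹ • ContinuousLinearMap.id ℝ (E n)))) x :=
    (h1.comp x h2).const_mul (t ^ a)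
  rw [h3.fderiv]
  unfold sc
  rw [zpow_sub_one₀ ht.ne']
  simp only [ContinuousLinearMap.smul_apply, ContinuousLinearMap.comp_apply,
    ContinuousLinearMap.id_apply, map_smul, smul_eq_mul]
  ring

theorem sc_int {a : ℤ} {t : ℝ} {κ : E n → ℝ} (ht : 0 < t) :
    ∫ x, |sc a t κ x| = t ^ (a + n) * ∫ x, |κ x| := by
  have h1 : ∀ x, |sc a t κ x| = t ^ a * |κ (t⁻¹ • x)| := by
    intro x
    unfold sc
    rw [abs_mul, abs_of_pos (zpow_pos ht a)]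
  simp only [h1]
  rw [integral_const_mul, Measure.integral_comp_inv_smul volume (fun x => |κ x|) t]
  rw [finrank_euclideanSpace_fin, abs_of_pos (pow_pos ht n), smul_eq_mul, zpow_add₀ ht.ne',
    zpow_natCast]
  ring

theorem der_supp {κ : E n → ℝ} {t : ℝ} (h : ∀ x, κ x ≠ 0 → ‖x‖ ≤ t) (e x : E n)
    (hx : fderiv ℝ κ x e ≠ 0) : ‖x‖ ≤ t := by
  by_contra hlt
  push Not at hlt
  apply hx
  have h0 : κ =ᶠ[𝓝 x] fun _ => (0 : ℝ) := by
    have ho : IsOpen {y : E n | t < ‖y‖} := isOpen_lt continuous_const continuous_norm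
    filter_upwards [ho.mem_nhds hlt] with y hy
    by_contra hne
    exact absurd (h y hne) (not_le.2 hy)
  rw [h0.fderiv_eq]
  simp

theorem der_smooth {κ : E n → ℝ} (h : ContDiff ℝ ∞ κ) (e : E n) :
    ContDiff ℝ ∞ (fun x => fderiv ℝ κ x e) :=
  (h.fderiv_right (m := ∞) (by norm_num)).clm_apply contDiff_const

theorem cpt_supp {κ : E n → ℝ} {t : ℝ} (h : ∀ x, κ x ≠ 0 → ‖x‖ ≤ t) : HasCompactSupport κ :=
  HasCompactSupport.intro (isCompact_closedBall 0 t) fun x hx => by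
    by_contra hne
    exact hx (mem_closedBall_zero_iff.2 (h x hne))

theorem int_ker {κ : E n → ℝ} {t : ℝ} (hs : ContDiff ℝ ∞ κ) (h : ∀ x, κ x ≠ 0 → ‖x‖ ≤ t) :
    Integrable κ := hs.continuous.integrable_of_hasCompactSupport (cpt_supp h)

theorem int_der {κ : E n → ℝ} {t : ℝ} (hs : ContDiff ℝ ∞ κ) (h : ∀ x, κ x ≠ 0 → ‖x‖ ≤ t)
    (e : E n) : ∫ x, fderiv ℝ κ x e = 0 := by
  have h1 := integral_mul_fderiv_eq_neg_fderiv_mul_of_integrable (μ := (volume : Measure (E n)))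
    (𝕜 := ℝ) (f := fun _ => (1 : ℝ)) (g := κ) (v := e) (by simp)
    (by simpa using int_ker (der_smooth hs e) (fun x hx => der_supp h e x hx))
    (by simpa using int_ker hs h) (fun x _ => differentiableAt_const _)
    (fun x _ => (hs.differentiable (by simp)).differentiableAt)
  simpa using h1

end Kernel

section Conv

variable {n : ℕ} {F : Type} [NormedAddCommGroup F] [NormedSpace ℝ F] [CompleteSpace F]

/-- The hypotheses on the function. -/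
structure Dat (g : E n → F) (x₀ : E n) (r t γ A : ℝ) : Prop where
  t0 : 0 < t
  tr : t < r
  γ0 : 0 < γ
  A0 : 0 ≤ A
  bd : ∀ x ∈ ball x₀ (2 * r), ‖g x‖ ≤ A
  ho : ∀ x ∈ ball x₀ (2 * r), ∀ y ∈ ball x₀ (2 * r), ‖g x - g y‖ ≤ A * ‖x - y‖ ^ γ

theorem Dat.cont {g : E n → F} {x₀ : E n} {r t γ A : ℝ} (D : Dat g x₀ r t γ A) :
    ContinuousOn g (ball x₀ (2 * r)) := by
  intro x hx
  have h1 : Tendsto (fun y : E n => A * ‖y - x‖ ^ γ) (𝓝[ball x₀ (2 * r)] x) (𝓝 0) := by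
    have h2 : Continuous (fun y : E n => A * ‖y - x‖ ^ γ) :=
      continuous_const.mul ((continuous_id.sub continuous_const).norm.rpow_const
        fun y => Or.inr D.γ0.le)
    have h3 := (h2.tendsto x)
    simp only [sub_self, norm_zero, Real.zero_rpow D.γ0.ne', mul_zero] at h3
    exact h3.mono_left nhdsWithin_le_nhds
  refine tendsto_iff_norm_sub_tendsto_zero.2 (squeeze_zero' ?_ ?_ h1)
  · exact Eventually.of_forall fun y => norm_nonneg _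
  · filter_upwards [self_mem_nhdsWithin] with y hy
    exact D.ho y hy x hx

theorem Dat.mem {g : E n → F} {x₀ : E n} {r t γ A : ℝ} (D : Dat g x₀ r t γ A) {x y : E n}
    (hx : x ∈ ball x₀ r) (hy : ‖y‖ ≤ t) : x - y ∈ ball x₀ (2 * r) := by
  rw [mem_ball, dist_eq_norm] at hx ⊢
  have h1 : ‖x - y - x₀‖ ≤ ‖x - x₀‖ + ‖y‖ := by
    have : x - y - x₀ = (x - x₀) - y := by abel
    rw [this]
    exact norm_sub_le _ _
  have := D.tr
  linarith

theorem Dat.conv (hCV : T_CVL) {g : E n → F} {x₀ : E n} {r t γ A : ℝ} (D : Dat g x₀ r t γ A)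
    {k : E n → ℝ} (hk : ContDiff ℝ ∞ k) (hs : ∀ x, k x ≠ 0 → ‖x‖ ≤ t) {x : E n}
    (hx : x ∈ ball x₀ r) : DifferentiableAt ℝ (cv k g) x ∧
      (∀ e : E n, fderiv ℝ (cv k g) x e = cv (fun z => fderiv ℝ k z e) g x) ∧
      cv k g x = ∫ y, k y • g (x - y) ∧ Integrable (fun y => k y • g (x - y)) := by
  obtain ⟨ρ, h1, h2⟩ := exists_between (mem_ball.1 hx)
  have hρ : 0 < ρ := dist_nonneg.trans_lt h1
  have h3 : ContinuousOn g (closedBall x₀ (ρ + t)) :=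
    D.cont.mono (closedBall_subset_ball (by have := D.tr; linarith))
  obtain ⟨h4, h5⟩ := hCV n F k g x₀ ρ t hρ D.t0 hk hs h3
  obtain ⟨h6, h7, h8⟩ := h5 x (mem_ball.2 h1)
  exact ⟨(h4.differentiableOn (by simp)).differentiableAt (isOpen_ball.mem_nhds (mem_ball.2 h1)),
    h6, h7, h8⟩

theorem Dat.bound (hCV : T_CVL) {g : E n → F} {x₀ : E n} {r t γ A : ℝ} (D : Dat g x₀ r t γ A)
    {k : E n → ℝ} (hk : ContDiff ℝ ∞ k) (hs : ∀ x, k x ≠ 0 → ‖x‖ ≤ t) {x : E n}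
    (hx : x ∈ ball x₀ r) : ‖cv k g x‖ ≤ A * ∫ y, |k y| := by
  obtain ⟨-, -, h1, h2⟩ := D.conv hCV hk hs hx
  rw [h1, ← integral_const_mul]
  refine norm_integral_le_of_norm_le ((int_ker hk hs).abs.const_mul A)
    (Eventually.of_forall fun y => ?_)
  rw [norm_smul, Real.norm_eq_abs]
  by_cases hy : k y = 0
  · simp [hy]
  · rw [mul_comm]
    exact mul_le_mul_of_nonneg_right (D.bd _ (D.mem hx (hs y hy))) (abs_nonneg _)

theorem Dat.center (hCV : T_CVL) {g : E n → F} {x₀ : E n} {r t γ A : ℝ} (D : Dat g x₀ r t γ A)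
    {k : E n → ℝ} (hk : ContDiff ℝ ∞ k) (hs : ∀ x, k x ≠ 0 → ‖x‖ ≤ t) (h0 : ∫ x, k x = 0) {x : E n}
    (hx : x ∈ ball x₀ r) : cv k g x = ∫ y, k y • (g (x - y) - g x) ∧
      Integrable (fun y => k y • (g (x - y) - g x)) := by
  obtain ⟨-, -, h1, h2⟩ := D.conv hCV hk hs hx
  have h3 : Integrable (fun y => k y • g x) := (int_ker hk hs).smul_const (g x)
  have h4 : (fun y => k y • (g (x - y) - g x)) = fun y => k y • g (x - y) - k y • g x := by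
    funext y
    rw [smul_sub]
  rw [h4]
  refine ⟨?_, h2.sub h3⟩
  rw [integral_sub h2 h3, integral_smul_const, h0, zero_smul, sub_zero, h1]

theorem Dat.bound2 (hCV : T_CVL) {g : E n → F} {x₀ : E n} {r t γ A : ℝ} (D : Dat g x₀ r t γ A)
    {k : E n → ℝ} (hk : ContDiff ℝ ∞ k) (hs : ∀ x, k x ≠ 0 → ‖x‖ ≤ t) (h0 : ∫ x, k x = 0) {x : E n}
    (hx : x ∈ ball x₀ r) : ‖cv k g x‖ ≤ A * t ^ γ * ∫ y, |k y| := by
  obtain ⟨h1, h2⟩ := D.center hCV hk hs h0 hx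
  rw [h1, ← integral_const_mul]
  refine norm_integral_le_of_norm_le ((int_ker hk hs).abs.const_mul _)
    (Eventually.of_forall fun y => ?_)
  rw [norm_smul, Real.norm_eq_abs]
  by_cases hy : k y = 0
  · simp [hy]
  · rw [mul_comm]
    refine mul_le_mul_of_nonneg_right ?_ (abs_nonneg _)
    have hx' : x ∈ ball x₀ (2 * r) := by
      have := D.mem hx (y := 0) (by simpa using D.t0.le)
      simpa using this
    refine (D.ho _ (D.mem hx (hs y hy)) _ hx').trans ?_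
    refine mul_le_mul_of_nonneg_left ?_ D.A0
    refine Real.rpow_le_rpow (norm_nonneg _) ?_ D.γ0.le
    have : x - y - x = -y := by abel
    rw [this, norm_neg]
    exact hs y hy

theorem Dat.diff (hCV : T_CVL) {g : E n → F} {x₀ : E n} {r t γ A : ℝ} (D : Dat g x₀ r t γ A)
    {k : E n → ℝ} (hk : ContDiff ℝ ∞ k) (hs : ∀ x, k x ≠ 0 → ‖x‖ ≤ t) (h0 : ∫ x, k x = 0)
    {x x' : E n} (hx : x ∈ ball x₀ r) (hx' : x' ∈ ball x₀ r) :
    ‖cv k g x - cv k g x'‖ ≤ 2 * A * t ^ (γ / 2) * ‖x - x'‖ ^ (γ / 2) * ∫ y, |k y| := by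
  obtain ⟨h1, h2⟩ := D.center hCV hk hs h0 hx
  obtain ⟨h3, h4⟩ := D.center hCV hk hs h0 hx'
  rw [h1, h3, ← integral_sub h2 h4, ← integral_const_mul]
  refine norm_integral_le_of_norm_le ((int_ker hk hs).abs.const_mul _)
    (Eventually.of_forall fun y => ?_)
  rw [← smul_sub, norm_smul, Real.norm_eq_abs]
  by_cases hy : k y = 0
  · simp [hy]
  rw [mul_comm]
  refine mul_le_mul_of_nonneg_right ?_ (abs_nonneg _)
  have hyt := hs y hy
  have m0 : ∀ {z : E n}, z ∈ ball x₀ r → z ∈ ball x₀ (2 * r) := by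
    intro z hz
    have := D.mem hz (y := 0) (by simpa using D.t0.le)
    simpa using this
  have e1 : ∀ {z : E n}, z ∈ ball x₀ r → ‖g (z - y) - g z‖ ≤ A * t ^ γ := by
    intro z hz
    refine (D.ho _ (D.mem hz hyt) _ (m0 hz)).trans ?_
    refine mul_le_mul_of_nonneg_left ?_ D.A0
    refine Real.rpow_le_rpow (norm_nonneg _) ?_ D.γ0.le
    have : z - y - z = -y := by abel
    rw [this, norm_neg]
    exact hyt
  have e2 : ‖g (x - y) - g (x' - y)‖ ≤ A * ‖x - x'‖ ^ γ := by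
    have := D.ho _ (D.mem hx hyt) _ (D.mem hx' hyt)
    have h5 : x - y - (x' - y) = x - x' := by abel
    rwa [h5] at this
  have e3 : ‖g x - g x'‖ ≤ A * ‖x - x'‖ ^ γ := D.ho _ (m0 hx) _ (m0 hx')
  have hh : ∀ s : ℝ, 0 ≤ s → s ^ γ = s ^ (γ / 2) * s ^ (γ / 2) := by
    intro s hs0
    rw [← Real.rpow_add_of_nonneg hs0 (by linarith [D.γ0]) (by linarith [D.γ0])]
    norm_num
  have ht2 : 0 ≤ t ^ (γ / 2) := Real.rpow_nonneg D.t0.le _
  have hd2 : 0 ≤ ‖x - x'‖ ^ (γ / 2) := Real.rpow_nonneg (norm_nonneg _) _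
  rcases le_total ‖x - x'‖ t with hc | hc
  · have h6 : g (x - y) - g x - (g (x' - y) - g x') =
        (g (x - y) - g (x' - y)) - (g x - g x') := by abel
    rw [h6]
    refine (norm_sub_le _ _).trans ?_
    have h7 : ‖x - x'‖ ^ γ ≤ t ^ (γ / 2) * ‖x - x'‖ ^ (γ / 2) := by
      rw [hh _ (norm_nonneg _)]
      refine mul_le_mul_of_nonneg_right ?_ hd2
      exact Real.rpow_le_rpow (norm_nonneg _) hc (by linarith [D.γ0])
    have h8 := mul_le_mul_of_nonneg_left h7 D.A0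
    nlinarith [e2, e3, h8]
  · refine (norm_sub_le _ _).trans ?_
    have h7 : t ^ γ ≤ t ^ (γ / 2) * ‖x - x'‖ ^ (γ / 2) := by
      rw [hh _ D.t0.le]
      refine mul_le_mul_of_nonneg_left ?_ ht2
      exact Real.rpow_le_rpow D.t0.le hc (by linarith [D.γ0])
    have h8 := mul_le_mul_of_nonneg_left h7 D.A0
    have e4 := e1 hx
    have e5 := e1 hx'
    nlinarith [e4, e5, h8]

end Conv

theorem pf_HBK (hCV : T_CVL) : T_HBK := by
  intro n ζ hζ hsup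
  have i0 : ∀ k : E n → ℝ, 0 ≤ ∫ x, |k x| := fun k => integral_nonneg fun x => abs_nonneg _
  obtain ⟨ζ1, hζ1⟩ : ∃ ζ1 : Fin n → E n → ℝ, ζ1 = fun i x => fderiv ℝ ζ x (bv i) := ⟨_, rfl⟩
  obtain ⟨ζ2, hζ2⟩ : ∃ ζ2 : Fin n → Fin n → E n → ℝ,
    ζ2 = fun i j x => fderiv ℝ (ζ1 i) x (bv j) := ⟨_, rfl⟩
  have s1 : ∀ i, ContDiff ℝ ∞ (ζ1 i) := fun i => by rw [hζ1]; exact der_smooth hζ _
  have s2 : ∀ i j, ContDiff ℝ ∞ (ζ2 i j) := fun i j => by rw [hζ2]; exact der_smooth (s1 i) _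
  have p1 : ∀ i x, ζ1 i x ≠ 0 → ‖x‖ ≤ 1 := fun i x => by rw [hζ1]; exact der_supp hsup _ x
  have p2 : ∀ i j x, ζ2 i j x ≠ 0 → ‖x‖ ≤ 1 := fun i j x => by
    rw [hζ2]; exact der_supp (p1 i) _ x
  obtain ⟨I0, hI0⟩ : ∃ I0 : ℝ, I0 = ∫ x, |ζ x| := ⟨_, rfl⟩
  obtain ⟨I1, hI1⟩ : ∃ I1 : ℝ, I1 = ∑ i, ∫ x, |ζ1 i x| := ⟨_, rfl⟩
  obtain ⟨I2, hI2⟩ : ∃ I2 : ℝ, I2 = ∑ i, ∑ j, ∫ x, |ζ2 i j x| := ⟨_, rfl⟩
  have n0 : 0 ≤ I0 := hI0 ▸ i0 _
  have n1 : 0 ≤ I1 := hI1 ▸ Finset.sum_nonneg fun i _ => i0 _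
  have n2 : 0 ≤ I2 := hI2 ▸ Finset.sum_nonneg fun i _ => Finset.sum_nonneg fun j _ => i0 _
  have b1 : ∀ i, ∫ x, |ζ1 i x| ≤ I1 := fun i => by
    rw [hI1]
    exact Finset.single_le_sum (f := fun i => ∫ x, |ζ1 i x|) (fun i _ => i0 _) (Finset.mem_univ i)
  have b2 : ∀ i j, ∫ x, |ζ2 i j x| ≤ I2 := fun i j => by
    rw [hI2]
    refine le_trans ?_ (Finset.single_le_sum (f := fun i => ∑ j, ∫ x, |ζ2 i j x|)
      (fun i _ => Finset.sum_nonneg fun j _ => i0 _) (Finset.mem_univ i))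
    exact Finset.single_le_sum (f := fun j => ∫ x, |ζ2 i j x|) (fun j _ => i0 _)
      (Finset.mem_univ j)
  refine ⟨2 * (I0 + I1 + I2), by positivity, ?_⟩
  intro F _ _ _ g x₀ r t γ A hr ht ht1 htr hγ hγ1 hA hbd hho
  have D : Dat g x₀ r t γ A := ⟨ht, htr, hγ, hA, hbd, hho⟩
  obtain ⟨τ, hτ⟩ : ∃ τ : ℝ, τ = t ^ (γ / 2) := ⟨_, rfl⟩
  have τ0 : 0 ≤ τ := hτ ▸ Real.rpow_nonneg ht.le _
  have τ1 : t ≤ τ := by
    rw [hτ]
    calc t = t ^ (1 : ℝ) := (Real.rpow_one t).symm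
      _ ≤ t ^ (γ / 2) := Real.rpow_le_rpow_of_exponent_ge ht ht1.le (by linarith)
  have τ2 : t ^ γ ≤ τ := by
    rw [hτ]
    exact Real.rpow_le_rpow_of_exponent_ge ht ht1.le (by linarith)
  have τ3 : t ^ 2 ≤ τ := by nlinarith
  -- the three kernels
  have k0s : ContDiff ℝ ∞ (sc (2 - n) t ζ) := sc_smooth hζ
  have k0p : ∀ x, sc (2 - n) t ζ x ≠ 0 → ‖x‖ ≤ t := sc_supp ht hsup
  have k0i : ∫ x, |sc (2 - n) t ζ x| ≤ τ * I0 := by
    rw [sc_int ht, ← hI0]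
    have : (2 - (n : ℤ) + n) = (2 : ℕ) := by push_cast; ring
    rw [this, zpow_natCast]
    exact mul_le_mul_of_nonneg_right τ3 n0
  have k1s : ∀ i, ContDiff ℝ ∞ (sc (1 - n) t (ζ1 i)) := fun i => sc_smooth (s1 i)
  have k1p : ∀ i, ∀ x, sc (1 - n) t (ζ1 i) x ≠ 0 → ‖x‖ ≤ t := fun i => sc_supp ht (p1 i)
  have k1i : ∀ i, ∫ x, |sc (1 - n) t (ζ1 i) x| ≤ τ * I1 := by
    intro i
    rw [sc_int ht]
    have : (1 - (n : ℤ) + n) = (1 : ℕ) := by push_cast; ring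
    rw [this, zpow_natCast, pow_one]
    exact mul_le_mul τ1 (b1 i) (i0 _) τ0
  have k2s : ∀ i j, ContDiff ℝ ∞ (sc (-n) t (ζ2 i j)) := fun i j => sc_smooth (s2 i j)
  have k2p : ∀ i j, ∀ x, sc (-n) t (ζ2 i j) x ≠ 0 → ‖x‖ ≤ t := fun i j => sc_supp ht (p2 i j)
  have k2i : ∀ i j, ∫ x, |sc (-n) t (ζ2 i j) x| ≤ I2 := by
    intro i j
    rw [sc_int ht]
    have : (-(n : ℤ) + n) = (0 : ℕ) := by push_cast; ring
    rw [this, zpow_natCast, pow_zero, one_mul]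
    exact b2 i j
  have d1 : ∀ i x, fderiv ℝ (sc (2 - n) t ζ) x (bv i) = sc (1 - n) t (ζ1 i) x := by
    intro i x
    rw [sc_fderiv ht hζ, hζ1]
    congr 1
    ring
  have d2 : ∀ i j x, fderiv ℝ (sc (1 - n) t (ζ1 i)) x (bv j) = sc (-n) t (ζ2 i j) x := by
    intro i j x
    rw [sc_fderiv ht (s1 i), hζ2]
    congr 1
    ring
  have z2 : ∀ i j, ∫ x, sc (-n) t (ζ2 i j) x = 0 := by
    intro i j
    have := int_der (k1s i) (k1p i) (bv j)
    rwa [funext (d2 i j)] at this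
  -- the derivatives
  have w1 : ∀ i, ∀ x ∈ ball x₀ r, fderiv ℝ (cv (sc (2 - n) t ζ) g) x (bv i) =
      cv (sc (1 - n) t (ζ1 i)) g x := by
    intro i x hx
    rw [(D.conv hCV k0s k0p hx).2.1 (bv i), funext (d1 i)]
  have ev : ∀ i, ∀ x ∈ ball x₀ r, (fun y => fderiv ℝ (cv (sc (2 - n) t ζ) g) y (bv i)) =ᶠ[𝓝 x]
      cv (sc (1 - n) t (ζ1 i)) g := by
    intro i x hx
    filter_upwards [isOpen_ball.mem_nhds hx] with y hy
    exact w1 i y hy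
  have w2 : ∀ i j, ∀ x ∈ ball x₀ r,
      fderiv ℝ (fun y => fderiv ℝ (cv (sc (2 - n) t ζ) g) y (bv i)) x (bv j) =
      cv (sc (-n) t (ζ2 i j)) g x := by
    intro i j x hx
    rw [(ev i x hx).fderiv_eq, (D.conv hCV (k1s i) (k1p i) hx).2.1 (bv j), funext (d2 i j)]
  have hAτ : 0 ≤ A * τ := mul_nonneg hA τ0
  refine ⟨fun x hx => ⟨?_, (D.conv hCV k0s k0p hx).1⟩, fun i => ⟨fun x hx => ⟨?_, ?_⟩, fun j =>
    ⟨fun x hx => ?_, fun x hx y hy => ?_⟩⟩⟩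
  · refine (D.bound hCV k0s k0p hx).trans ?_
    refine (mul_le_mul_of_nonneg_left k0i hA).trans ?_
    rw [← hτ]
    nlinarith [mul_nonneg hAτ n0, mul_nonneg hAτ n1, mul_nonneg hAτ n2]
  · change ‖fderiv ℝ (cv (sc (2 - n) t ζ) g) x (bv i)‖ ≤ _
    rw [w1 i x hx]
    refine (D.bound hCV (k1s i) (k1p i) hx).trans ?_
    refine (mul_le_mul_of_nonneg_left (k1i i) hA).trans ?_
    rw [← hτ]
    nlinarith [mul_nonneg hAτ n0, mul_nonneg hAτ n1, mul_nonneg hAτ n2]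
  · exact (ev i x hx).differentiableAt_iff.2 (D.conv hCV (k1s i) (k1p i) hx).1
  · change ‖fderiv ℝ (fun y => fderiv ℝ (cv (sc (2 - n) t ζ) g) y (bv i)) x (bv j)‖ ≤ _
    rw [w2 i j x hx]
    refine (D.bound2 hCV (k2s i j) (k2p i j) (z2 i j) hx).trans ?_
    have h1 : A * t ^ γ * ∫ y, |sc (-n) t (ζ2 i j) y| ≤ A * τ * I2 :=
      mul_le_mul (mul_le_mul_of_nonneg_left τ2 hA) (k2i i j) (i0 _) hAτ
    refine h1.trans ?_
    rw [← hτ]
    nlinarith [mul_nonneg hAτ n0, mul_nonneg hAτ n1, mul_nonneg hAτ n2]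
  · change ‖fderiv ℝ (fun y => fderiv ℝ (cv (sc (2 - n) t ζ) g) y (bv i)) x (bv j) -
      fderiv ℝ (fun y => fderiv ℝ (cv (sc (2 - n) t ζ) g) y (bv i)) y (bv j)‖ ≤ _
    rw [w2 i j x hx, w2 i j y hy]
    refine (D.diff hCV (k2s i j) (k2p i j) (z2 i j) hx hy).trans ?_
    rw [← hτ]
    obtain ⟨d, hd⟩ : ∃ d : ℝ, d = ‖x - y‖ ^ (γ / 2) := ⟨_, rfl⟩
    have hd0 : 0 ≤ d := hd ▸ Real.rpow_nonneg (norm_nonneg _) _
    rw [← hd]
    have hq : 0 ≤ A * τ * d := mul_nonneg hAτ hd0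
    have h1 : 2 * A * τ * d * ∫ y, |sc (-n) t (ζ2 i j) y| ≤ 2 * A * τ * d * I2 :=
      mul_le_mul_of_nonneg_left (k2i i j) (by linarith)
    refine h1.trans ?_
    nlinarith [mul_nonneg hq n0, mul_nonneg hq n1, mul_nonneg hq n2]

end Pool.Agent.H70.RG
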