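import Pool.Agent.H87.SN.Defs

/-! Regularity of weakly harmonic maps (MP_2697e3_an), part E: from Hölder continuous first derivatives to
smoothness. Working definitions and target statements of the rows of the board. -/

namespace Pool.Agent.H70.RG

open MeasureTheory Metric Set Filter Topology Pool.Agent.H87.SN
open scoped ContDiff

noncomputable section

/-! ### Definitions -/

/-- Locally Hölder functions on `U`. -/
def LH {n : ℕ} {F : Type} [NormedAddCommGroup F] (v : E n → F) (U : Set (E n)) : Prop :=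
  ∀ x ∈ U, ∃ r C γ : ℝ, 0 < r ∧ 0 ≤ C ∧ 0 < γ ∧ γ ≤ 1 ∧ ball x r ⊆ U ∧
    ∀ y ∈ ball x r, ∀ z ∈ ball x r, ‖v y - v z‖ ≤ C * ‖y - z‖ ^ γ

/-- The classes `HH j`: locally Hölder for `j = 0`; `HH (j + 1)`: differentiable at all points of `U`, with
all partial derivatives in `HH j`. -/
def HH {n : ℕ} {F : Type} [NormedAddCommGroup F] [NormedSpace ℝ F] :
    ℕ → (E n → F) → Set (E n) → Prop
  | 0, v, U => LH v U
  | j + 1, v, U => (∀ x ∈ U, DifferentiableAt ℝ v x) ∧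
      ∀ i : Fin n, HH j (fun x => fderiv ℝ v x (bv i)) U

/-- Uniform bounds `C` of all derivatives of order at most `j`, and of the Hölder seminorm (exponent `γ`) of
the derivatives of order `j`, on the set `B`. -/
def HB {n : ℕ} {F : Type} [NormedAddCommGroup F] [NormedSpace ℝ F] (γ C : ℝ) :
    ℕ → (E n → F) → Set (E n) → Prop
  | 0, v, B => (∀ x ∈ B, ‖v x‖ ≤ C) ∧ ∀ y ∈ B, ∀ z ∈ B, ‖v y - v z‖ ≤ C * ‖y - z‖ ^ γ
  | j + 1, v, B => (∀ x ∈ B, ‖v x‖ ≤ C ∧ DifferentiableAt ℝ v x) ∧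
      ∀ i : Fin n, HB γ C j (fun x => fderiv ℝ v x (bv i)) B

/-- Real test functions in `U`. -/
def TF {n : ℕ} (U : Set (E n)) (ψ : E n → ℝ) : Prop :=
  ContDiff ℝ ∞ ψ ∧ HasCompactSupport ψ ∧ tsupport ψ ⊆ U

/-- The Laplace operator for real functions. -/
def lp {n : ℕ} (ψ : E n → ℝ) (x : E n) : ℝ :=
  ∑ i : Fin n, fderiv ℝ (fun y => fderiv ℝ ψ y (bv i)) x (bv i)

/-- Convolution of the kernel `k` with the function `v`. -/
def cv {n : ℕ} {F : Type} [NormedAddCommGroup F] [NormedSpace ℝ F] (k : E n → ℝ) (v : E n → F)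
    (x : E n) : F := ∫ y, k (x - y) • v y

/-- The scaled kernel `t^a k(x / t)`. -/
def sc {n : ℕ} (a : ℤ) (t : ℝ) (k : E n → ℝ) (x : E n) : ℝ := t ^ a * k (t⁻¹ • x)

/-- The pair of kernels: `φ` is nonnegative with integral one, `2^n φ(2x) - φ(x) = Δ ζ(x)`. -/
structure Ker (n : ℕ) (φ ζ : E n → ℝ) : Prop where
  sφ : ContDiff ℝ ∞ φ
  sζ : ContDiff ℝ ∞ ζ
  pφ : ∀ x, φ x ≠ 0 → ‖x‖ ≤ 1
  pζ : ∀ x, ζ x ≠ 0 → ‖x‖ ≤ 1
  nn : ∀ x, 0 ≤ φ x
  one : ∫ x, φ x = 1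
  lap : ∀ x, 2 ^ n * φ ((2 : ℝ) • x) - φ x = lp ζ x

/-- Weak equation `Δ v = g` on `U`. -/
def WE {n : ℕ} {F : Type} [NormedAddCommGroup F] [NormedSpace ℝ F] (U : Set (E n)) (v g : E n → F) :
    Prop :=
  ∀ ψ : E n → ℝ, TF U ψ → ∫ x, lp ψ x • v x = ∫ x, ψ x • g x

/-! ### The classes -/

/-- Locality. -/
def T_HLO : Prop := ∀ (n : ℕ) (F : Type) [NormedAddCommGroup F] [NormedSpace ℝ F] (j : ℕ),
    (∀ (v : E n → F) (U W : Set (E n)), IsOpen W → W ⊆ U → HH j v U → HH j v W) ∧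
    (∀ (v w : E n → F) (U : Set (E n)), IsOpen U → (∀ x ∈ U, v x = w x) → HH j v U → HH j w U) ∧
    (∀ (v : E n → F) (U : Set (E n)), (∀ x ∈ U, ∃ r : ℝ, 0 < r ∧ ball x r ⊆ U ∧
      HH j v (ball x r)) → HH j v U) ∧
    (∀ (v : E n → F) (x : E n) (r γ C : ℝ), 0 < γ → γ ≤ 1 → HB γ C j v (ball x r) →
      HH j v (ball x r))

/-- Monotonicity in `j`, continuity. -/
def T_HMO : Prop := ∀ (n : ℕ) (F : Type) [NormedAddCommGroup F] [NormedSpace ℝ F] (j : ℕ)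
    (v : E n → F) (U : Set (E n)), IsOpen U → (HH (j + 1) v U → HH j v U) ∧
    (HH j v U → ContinuousOn v U)

/-- Sums, finite sums and continuous linear maps. -/
def T_HAL : Prop := ∀ (n : ℕ) (F F' : Type) [NormedAddCommGroup F] [NormedSpace ℝ F]
    [NormedAddCommGroup F'] [NormedSpace ℝ F'] (j : ℕ) (U : Set (E n)), IsOpen U →
    (∀ v w : E n → F, HH j v U → HH j w U → HH j (fun x => v x + w x) U) ∧
    (∀ (N : ℕ) (v : Fin N → E n → F), (∀ a, HH j (v a) U) → HH j (fun x => ∑ a, v a x) U) ∧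
    (∀ (L : F →L[ℝ] F') (v : E n → F), HH j v U → HH j (fun x => L (v x)) U)

/-- Bilinear maps. -/
def T_HBI : Prop := ∀ (n : ℕ) (F F' H : Type) [NormedAddCommGroup F] [NormedSpace ℝ F]
    [NormedAddCommGroup F'] [NormedSpace ℝ F'] [NormedAddCommGroup H] [NormedSpace ℝ H]
    (B : F →L[ℝ] F' →L[ℝ] H) (j : ℕ) (U : Set (E n)) (v : E n → F) (w : E n → F'), IsOpen U →
    HH j v U → HH j w U → HH j (fun x => B (v x) (w x)) U

/-- Smooth functions. -/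
def T_HCO : Prop := ∀ (n : ℕ) (j : ℕ) (U : Set (E n)), IsOpen U →
    ∀ (F F' : Type) [NormedAddCommGroup F] [NormedSpace ℝ F] [FiniteDimensional ℝ F]
    [NormedAddCommGroup F'] [NormedSpace ℝ F'] (Φ : F → F') (v : E n → F), ContDiff ℝ ∞ Φ →
    HH j v U → HH j (fun x => Φ (v x)) U

/-- Smooth functions and the classes. -/
def T_HCD : Prop := ∀ (n : ℕ) (F : Type) [NormedAddCommGroup F] [NormedSpace ℝ F]
    (v : E n → F) (U : Set (E n)), IsOpen U → ((∀ j, HH j v U) ↔ ContDiffOn ℝ ∞ v U)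

/-! ### Analysis -/

/-- Convolutions are smooth. -/
def T_CVD : Prop := ∀ (n : ℕ) (F : Type) [NormedAddCommGroup F] [NormedSpace ℝ F]
    [CompleteSpace F] (k : E n → ℝ) (v : E n → F), ContDiff ℝ ∞ k → HasCompactSupport k →
    LocallyIntegrable v volume → ContDiff ℝ ∞ (cv k v) ∧
    ∀ x e : E n, fderiv ℝ (cv k v) x e = cv (fun z => fderiv ℝ k z e) v x

/-- Convolutions on a ball: only the values near the ball count. -/
def T_CVL : Prop := ∀ (n : ℕ) (F : Type) [NormedAddCommGroup F] [NormedSpace ℝ F]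
    [CompleteSpace F] (k : E n → ℝ) (v : E n → F) (x₀ : E n) (r t : ℝ), 0 < r → 0 < t →
    ContDiff ℝ ∞ k → (∀ x, k x ≠ 0 → ‖x‖ ≤ t) → ContinuousOn v (closedBall x₀ (r + t)) →
    ContDiffOn ℝ ∞ (cv k v) (ball x₀ r) ∧
    ∀ x ∈ ball x₀ r, (∀ e : E n, fderiv ℝ (cv k v) x e = cv (fun z => fderiv ℝ k z e) v x) ∧
      cv k v x = ∫ y, k y • v (x - y) ∧ Integrable (fun y => k y • v (x - y))

/-- Series. -/
def T_SER : Prop := ∀ (n : ℕ) (F : Type) [NormedAddCommGroup F] [NormedSpace ℝ F]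
    [CompleteSpace F] (γ : ℝ) (C : ℕ → ℝ) (x₀ : E n) (r : ℝ), 0 < γ → γ ≤ 1 → Summable C →
    ∀ (j : ℕ) (w : ℕ → E n → F), (∀ k, HB γ (C k) j (w k) (ball x₀ r)) →
    (∀ x ∈ ball x₀ r, Summable (fun k => w k x)) ∧
    HB γ (∑' k, C k) j (fun x => ∑' k, w k x) (ball x₀ r)

/-- The convolution with the kernel `t^(2-n) ζ(x / t)`. -/
def T_HBK : Prop := ∀ (n : ℕ) (ζ : E n → ℝ), ContDiff ℝ ∞ ζ → (∀ x, ζ x ≠ 0 → ‖x‖ ≤ 1) →
    ∃ C : ℝ, 0 ≤ C ∧ ∀ (F : Type) [NormedAddCommGroup F] [NormedSpace ℝ F] [CompleteSpace F]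
    (g : E n → F) (x₀ : E n) (r t γ A : ℝ), 0 < r → 0 < t → t < 1 → t < r → 0 < γ → γ ≤ 1 → 0 ≤ A →
    (∀ x ∈ ball x₀ (2 * r), ‖g x‖ ≤ A) →
    (∀ x ∈ ball x₀ (2 * r), ∀ y ∈ ball x₀ (2 * r), ‖g x - g y‖ ≤ A * ‖x - y‖ ^ γ) →
    HB (γ / 2) (C * A * t ^ (γ / 2)) 2 (cv (sc (2 - n) t ζ) g) (ball x₀ r)

/-- The representation formula. -/
def T_RPF : Prop := ∀ (n : ℕ) (φ ζ : E n → ℝ), Ker n φ ζ →
    ∀ (F : Type) [NormedAddCommGroup F] [NormedSpace ℝ F] [CompleteSpace F] (U : Set (E n))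
    (v g : E n → F), IsOpen U → ContinuousOn v U → ContinuousOn g U → WE U v g →
    ∀ (x : E n) (t : ℝ), 0 < t → closedBall x t ⊆ U →
    HasSum (fun k : ℕ => cv (sc (2 - n) (t / 2 ^ k) ζ) g x) (v x - cv (sc (-n) t φ) v x)

/-- Existence of the kernels. -/
def T_KEX : Prop := ∀ n : ℕ, ∃ φ ζ : E n → ℝ, Ker n φ ζ

/-- The first step of Schauder theory. -/
def T_SCH : Prop := ∀ (n : ℕ) (F : Type) [NormedAddCommGroup F] [NormedSpace ℝ F]
    [CompleteSpace F] (U : Set (E n)) (v g : E n → F), IsOpen U → ContinuousOn v U → HH 0 g U →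
    WE U v g → HH 2 v U

/-- Integration by parts. -/
def T_IBP : Prop := ∀ (n : ℕ) (F : Type) [NormedAddCommGroup F] [NormedSpace ℝ F]
    [CompleteSpace F] (U : Set (E n)) (v : E n → F) (e : E n), IsOpen U →
    (∀ x ∈ U, DifferentiableAt ℝ v x) → ContinuousOn (fun x => fderiv ℝ v x e) U →
    ∀ ψ : E n → ℝ, TF U ψ → TF U (fun x => fderiv ℝ ψ x e) ∧
    (∀ x, lp (fun y => fderiv ℝ ψ y e) x = fderiv ℝ (lp ψ) x e) ∧ TF U (lp ψ) ∧
    ∫ x, fderiv ℝ ψ x e • v x = - ∫ x, ψ x • fderiv ℝ v x e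

/-- Schauder theory. -/
def T_BOO : Prop := ∀ (n : ℕ) (F : Type) [NormedAddCommGroup F] [NormedSpace ℝ F]
    [CompleteSpace F] (U : Set (E n)), IsOpen U → ∀ (j : ℕ) (v g : E n → F), ContinuousOn v U →
    HH j g U → WE U v g → HH (j + 2) v U

/-- Smoothness of solutions with Hölder continuous first derivatives. -/
def T_SYS : Prop := ∀ (n m : ℕ) (A : E m → E m →L[ℝ] E m →L[ℝ] E m) (U : Set (E n)) (u : E n → E m),
    ContDiff ℝ ∞ A → IsOpen U → HH 1 u U →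
    (∀ ψ : E n → ℝ, TF U ψ → ∫ x, ∑ i : Fin n, fderiv ℝ ψ x (bv i) • fderiv ℝ u x (bv i) =
      ∫ x, ψ x • ∑ i : Fin n, A (u x) (fderiv ℝ u x (bv i)) (fderiv ℝ u x (bv i))) →
    ContDiffOn ℝ ∞ u U

end

end Pool.Agent.H70.RG
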