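import Pool.Agent.H70.RG.Cnv
import Pool.Agent.H86.RG.Targets2

/-! Board reg (MP_2697e3_an), part E, PC1: Morrey decay of the Laplacian gives a Hölder continuous
gradient. -/

namespace Pool.Agent.H70.RG

open MeasureTheory Metric Set Filter Topology Pool.Agent.H87.SN Pool.Agent.H86.RG
open scoped ContDiff

namespace PC1

/-- Interpolation of two bounds. -/
theorem interp {t d s a B : ℝ} (ht : 0 < t) (hd : 0 ≤ d) (hs1 : 1 < s) (hs2 : s ≤ 2) (hB : 0 ≤ B)
    (h1 : a ≤ 2 * B * t ^ (s - 1)) (h2 : a ≤ B * t ^ (s - 2) * d) :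
    a ≤ 2 * B * t ^ ((s - 1) / 2) * d ^ ((s - 1) / 2) := by
  obtain ⟨γ, hγ⟩ : ∃ γ : ℝ, γ = (s - 1) / 2 := ⟨_, rfl⟩
  rw [← hγ]
  have hγ0 : 0 < γ := by rw [hγ]; linarith
  have hγ1 : γ ≤ 1 / 2 := by rw [hγ]; linarith
  have e1 : t ^ (s - 1) = t ^ γ * t ^ γ := by
    rw [← Real.rpow_add ht]
    congr 1
    rw [hγ]; ring
  have ht0 : 0 ≤ t ^ γ := Real.rpow_nonneg ht.le _
  rcases le_total t d with hc | hc
  · refine h1.trans ?_
    rw [e1, ← mul_assoc]
    refine mul_le_mul_of_nonneg_left (Real.rpow_le_rpow ht.le hc hγ0.le) (by positivity)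
  · refine h2.trans ?_
    have e2 : t ^ (s - 2) = t ^ γ * t ^ (γ - 1) := by
      rw [← Real.rpow_add ht]
      congr 1
      rw [hγ]; ring
    have e3 : t ^ (γ - 1) * d ≤ d ^ γ := by
      rcases hd.eq_or_lt with h0 | h0
      · rw [← h0, mul_zero]
        exact Real.rpow_nonneg le_rfl _
      · have e4 : d = d ^ γ * d ^ (1 - γ) := by
          rw [← Real.rpow_add h0]
          conv_lhs => rw [← Real.rpow_one d]
          congr 1
          ring
        have e5 : d ^ (1 - γ) ≤ t ^ (1 - γ) := Real.rpow_le_rpow hd hc (by linarith)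
        have e6 : t ^ (γ - 1) * t ^ (1 - γ) = 1 := by
          rw [← Real.rpow_add ht]
          have : γ - 1 + (1 - γ) = 0 := by ring
          rw [this, Real.rpow_zero]
        have e7 : 0 ≤ t ^ (γ - 1) := Real.rpow_nonneg ht.le _
        have e8 : 0 ≤ d ^ γ := Real.rpow_nonneg hd _
        calc t ^ (γ - 1) * d = t ^ (γ - 1) * (d ^ γ * d ^ (1 - γ)) := by rw [← e4]
          _ = d ^ γ * (t ^ (γ - 1) * d ^ (1 - γ)) := by ring
          _ ≤ d ^ γ * (t ^ (γ - 1) * t ^ (1 - γ)) :=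
            mul_le_mul_of_nonneg_left (mul_le_mul_of_nonneg_left e5 e7) e8
          _ = d ^ γ := by rw [e6, mul_one]
    have e9 : 0 ≤ d ^ γ := Real.rpow_nonneg hd _
    have e10 : B * t ^ γ * (t ^ (γ - 1) * d) ≤ B * t ^ γ * d ^ γ :=
      mul_le_mul_of_nonneg_left e3 (by positivity)
    have e11 : 0 ≤ B * t ^ γ * d ^ γ := by positivity
    calc B * t ^ (s - 2) * d = B * t ^ γ * (t ^ (γ - 1) * d) := by rw [e2]; ring
      _ ≤ 2 * B * t ^ γ * d ^ γ := by linarith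

/-- A bound of the derivative by the partial derivatives. -/
theorem norm_le {n : ℕ} {F : Type} [NormedAddCommGroup F] [NormedSpace ℝ F] (L : E n →L[ℝ] F)
    {B : ℝ} (hB : 0 ≤ B) (h : ∀ i : Fin n, ‖L (bv i)‖ ≤ B) : ‖L‖ ≤ n * B := by
  refine L.opNorm_le_bound (by positivity) fun v => ?_
  have hv : v = ∑ i : Fin n, (v i) • (bv i : E n) := by
    ext j
    simp [bv, Pi.single_apply]
  conv_lhs => rw [hv]
  rw [map_sum]
  refine (norm_sum_le _ _).trans ?_
  have : ∀ i ∈ (Finset.univ : Finset (Fin n)), ‖L (v i • bv i)‖ ≤ B * ‖v‖ := by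
    intro i _
    rw [map_smul, norm_smul, mul_comm]
    exact mul_le_mul (h i) (PiLp.norm_apply_le v i) (norm_nonneg _) hB
  refine (Finset.sum_le_sum this).trans ?_
  rw [Finset.sum_const, Finset.card_univ, Fintype.card_fin, nsmul_eq_mul]
  exact le_of_eq (by ring)

end PC1

theorem pf_P1 (hKER : T_KER) (hDIL : T_DIL) (hDCV : T_DCV) (hTRC : T_TRC) (hREP : T_REP)
    (hLM : T_LM) (hSER : T_SER) (h0 : T_HLO) (h1 : T_HAL) (h2 : T_HCD) : T_P1 := by
  intro n v g x₀ R C s hn hR hs1 hs2 hvc hvi hgi hw hM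
  obtain ⟨φ, ζ, K⟩ := hKER n hn
  obtain ⟨g', hg'⟩ : ∃ g' : E n → ℝ, g' = (ball x₀ (2 * R)).indicator g := ⟨_, rfl⟩
  obtain ⟨v', hv'⟩ : ∃ v' : E n → ℝ, v' = (ball x₀ (2 * R)).indicator v := ⟨_, rfl⟩
  have hg'i : Integrable g' := hg' ▸ (integrable_indicator_iff measurableSet_ball).2 hgi
  have hv'i : Integrable v' := hv' ▸ (integrable_indicator_iff measurableSet_ball).2 hvi
  -- bound of the kernels
  obtain ⟨t, ht⟩ : ∃ t : ℕ → ℝ, t = fun k => R / 2 ^ k := ⟨_, rfl⟩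
  have t0 : ∀ k, 0 < t k := fun k => by rw [ht]; positivity
  have tR : ∀ k, t k ≤ R := fun k => by
    rw [ht]
    exact div_le_self hR.le (one_le_pow₀ (by norm_num))
  have D0 := hDIL n ζ
  have dz : ∀ i, ContDiff ℝ ∞ (dd i ζ) ∧ (∀ x, 1 ≤ ‖x‖ → dd i ζ x = 0) := fun i =>
    ⟨((D0 1 one_pos K.sζ K.zζ).2.2.2.2 i).1, ((D0 1 one_pos K.sζ K.zζ).2.2.2.2 i).2.1⟩
  have dz2 : ∀ i j, ContDiff ℝ ∞ (dd j (dd i ζ)) ∧ (∀ x, 1 ≤ ‖x‖ → dd j (dd i ζ) x = 0) :=
    fun i j => ⟨((hDIL n (dd i ζ) 1 one_pos (dz i).1 (dz i).2).2.2.2.2 j).1,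
      ((hDIL n (dd i ζ) 1 one_pos (dz i).1 (dz i).2).2.2.2.2 j).2.1⟩
  have bk : ∀ k : E n → ℝ, ContDiff ℝ ∞ k → (∀ x, 1 ≤ ‖x‖ → k x = 0) →
      ∃ M : ℝ, 0 ≤ M ∧ ∀ y, |k y| ≤ M := by
    intro k hk hz
    have hc : HasCompactSupport k := HasCompactSupport.intro (isCompact_closedBall 0 1)
      fun x hx => hz x (by
        rw [mem_closedBall_zero_iff, not_le] at hx
        exact hx.le)
    obtain ⟨M, hM⟩ := hc.exists_bound_of_continuous hk.continuous
    exact ⟨M, (norm_nonneg _).trans (hM 0), hM⟩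
  obtain ⟨M, hM0, m0, m1, m2⟩ : ∃ M : ℝ, 0 ≤ M ∧ (∀ y, |ζ y| ≤ M) ∧ (∀ i y, |dd i ζ y| ≤ M) ∧
      (∀ i j y, |dd j (dd i ζ) y| ≤ M) := by
    obtain ⟨M0, p0, q0⟩ := bk ζ K.sζ K.zζ
    choose M1 p1 q1 using fun i => bk (dd i ζ) (dz i).1 (dz i).2
    choose M2 p2 q2 using fun i j => bk (dd j (dd i ζ)) (dz2 i j).1 (dz2 i j).2
    have a1 : 0 ≤ ∑ i, M1 i := Finset.sum_nonneg fun i _ => p1 i
    have a2 : 0 ≤ ∑ i, ∑ j, M2 i j := Finset.sum_nonneg fun i _ => Finset.sum_nonneg fun j _ => p2 i j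
    refine ⟨M0 + ∑ i, M1 i + ∑ i, ∑ j, M2 i j, by positivity, fun y => ?_, fun i y => ?_,
      fun i j y => ?_⟩
    · linarith [q0 y]
    · have := Finset.single_le_sum (f := M1) (fun i _ => p1 i) (Finset.mem_univ i)
      linarith [q1 i y]
    · have b1 := Finset.single_le_sum (f := fun i => ∑ j, M2 i j)
        (fun i _ => Finset.sum_nonneg fun j _ => p2 i j) (Finset.mem_univ i)
      have b2 := Finset.single_le_sum (f := M2 i) (fun j _ => p2 i j) (Finset.mem_univ j)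
      linarith [q2 i j y]
  -- the decay
  have hC0 : 0 ≤ C := by
    have h3 := hM x₀ (mem_ball_self hR) R hR le_rfl
    have h4 : 0 ≤ ∫ y in ball x₀ R, |g y| := integral_nonneg fun y => abs_nonneg _
    have h5 : 0 < R ^ ((n : ℝ) - 2 + s) := Real.rpow_pos_of_pos hR _
    by_contra h6
    push Not at h6
    linarith [mul_neg_of_neg_of_pos h6 h5]
  have dec : ∀ x ∈ ball x₀ R, ∀ k, (t k ^ n)⁻¹ * ∫ y in ball x (t k), |g' y| ≤
      C * t k ^ (s - 2) := by
    intro x hx k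
    have h3 : ∫ y in ball x (t k), |g' y| = ∫ y in ball x (t k), |g y| := by
      refine setIntegral_congr_fun measurableSet_ball fun y hy => ?_
      have h4 : y ∈ ball x₀ (2 * R) := by
        rw [mem_ball] at hx hy ⊢
        linarith [dist_triangle y x x₀, tR k]
      simp only [hg', indicator_of_mem h4]
    rw [h3]
    have h5 := hM x hx (t k) (t0 k) (tR k)
    have h6 : t k ^ ((n : ℝ) - 2 + s) = t k ^ n * t k ^ (s - 2) := by
      rw [← Real.rpow_natCast, ← Real.rpow_add (t0 k)]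
      congr 1
      ring
    rw [h6] at h5
    have h7 : 0 < t k ^ n := pow_pos (t0 k) n
    calc (t k ^ n)⁻¹ * ∫ y in ball x (t k), |g y|
        ≤ (t k ^ n)⁻¹ * (C * (t k ^ n * t k ^ (s - 2))) :=
          mul_le_mul_of_nonneg_left h5 (by positivity)
      _ = C * t k ^ (s - 2) := by field_simp
  have cb : ∀ κ : E n → ℝ, ContDiff ℝ ∞ κ → (∀ x, 1 ≤ ‖x‖ → κ x = 0) → (∀ y, |κ y| ≤ M) →
      ∀ x ∈ ball x₀ R, ∀ k, |H86.RG.cv (dil κ (t k)) g' x| ≤ M * C * t k ^ (s - 2) := by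
    intro κ hκ hz hb x hx k
    refine ((hDCV n κ g' (t k) (t0 k) hκ hz hg'i).2.2 M x hb).trans ?_
    rw [mul_assoc, mul_assoc]
    exact mul_le_mul_of_nonneg_left (dec x hx k) hM0
  -- the functions
  obtain ⟨w, hwd⟩ : ∃ w : ℕ → E n → ℝ, w = fun k x => t k ^ 2 * H86.RG.cv (dil ζ (t k)) g' x :=
    ⟨_, rfl⟩
  have w0 : ∀ k, ContDiff ℝ ∞ (w k) := fun k => by
    rw [hwd]
    exact contDiff_const.mul (hDCV n ζ g' (t k) (t0 k) K.sζ K.zζ hg'i).1
  have w1 : ∀ k i, (fun x => fderiv ℝ (w k) x (bv i)) =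
      fun x => t k * H86.RG.cv (dil (dd i ζ) (t k)) g' x := by
    intro k i
    funext x
    have h3 := (hDCV n ζ g' (t k) (t0 k) K.sζ K.zζ hg'i)
    have h4 : HasFDerivAt (w k) (t k ^ 2 • fderiv ℝ (H86.RG.cv (dil ζ (t k)) g') x) x := by
      rw [hwd]
      exact ((h3.1.differentiable (by simp)).differentiableAt.hasFDerivAt).const_mul _
    rw [h4.fderiv]
    have h5 := h3.2.1 i x
    unfold dd at h5
    change t k ^ 2 * fderiv ℝ (H86.RG.cv (dil ζ (t k)) g') x (bv i) = _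
    rw [h5]
    have := (t0 k).ne'
    unfold dd
    field_simp
  have w2 : ∀ k i j x, fderiv ℝ (fun x => fderiv ℝ (w k) x (bv i)) x (bv j) =
      H86.RG.cv (dil (dd j (dd i ζ)) (t k)) g' x := by
    intro k i j x
    rw [w1]
    have h3 := (hDCV n (dd i ζ) g' (t k) (t0 k) (dz i).1 (dz i).2 hg'i)
    have h4 : HasFDerivAt (fun x => t k * H86.RG.cv (dil (dd i ζ) (t k)) g' x)
        (t k • fderiv ℝ (H86.RG.cv (dil (dd i ζ) (t k)) g') x) x :=
      ((h3.1.differentiable (by simp)).differentiableAt.hasFDerivAt).const_mul _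
    rw [h4.fderiv]
    have h5 := h3.2.1 j x
    unfold dd at h5
    change t k * fderiv ℝ (H86.RG.cv (dil (fun x => fderiv ℝ ζ x (bv i)) (t k)) g') x (bv j) = _
    rw [h5]
    have := (t0 k).ne'
    unfold dd
    field_simp
  -- the bounds
  obtain ⟨γ, hγ⟩ : ∃ γ : ℝ, γ = (s - 1) / 2 := ⟨_, rfl⟩
  have hγ0 : 0 < γ := by rw [hγ]; linarith
  have hγ1 : γ ≤ 1 := by rw [hγ]; linarith
  obtain ⟨D, hD⟩ : ∃ D : ℝ, D = M * C * (1 + R) * (1 + R) * (2 * n + 2) := ⟨_, rfl⟩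
  have hMC : 0 ≤ M * C := mul_nonneg hM0 hC0
  have tp : ∀ k, 0 ≤ t k ^ γ := fun k => Real.rpow_nonneg (t0 k).le _
  have ts1 : ∀ k, t k ^ (s - 1) ≤ (1 + R) * t k ^ γ := by
    intro k
    have e1 : t k ^ (s - 1) = t k ^ γ * t k ^ γ := by
      rw [← Real.rpow_add (t0 k)]
      congr 1
      rw [hγ]; ring
    have e2 : t k ^ γ ≤ 1 + R := by
      calc t k ^ γ ≤ (1 + R) ^ γ := Real.rpow_le_rpow (t0 k).le (by linarith [tR k]) hγ0.le
        _ ≤ (1 + R) ^ (1 : ℝ) := Real.rpow_le_rpow_of_exponent_le (by linarith) hγ1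
        _ = 1 + R := Real.rpow_one _
    rw [e1]
    exact mul_le_mul_of_nonneg_right e2 (tp k)
  have e12 : ∀ k, t k * t k ^ (s - 2) = t k ^ (s - 1) := by
    intro k
    conv_lhs => rw [← Real.rpow_one (t k)]
    rw [← Real.rpow_mul (t0 k).le, one_mul, ← Real.rpow_add (t0 k)]
    congr 1
    ring
  have hsB : ∀ k, HB γ (D * t k ^ γ) 1 (w k) (ball x₀ R) := by
    intro k
    have pk := tp k
    have b1 : ∀ i, ∀ x ∈ ball x₀ R, |fderiv ℝ (w k) x (bv i)| ≤ M * C * t k ^ (s - 1) := by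
      intro i x hx
      have h3 := congrFun (w1 k i) x
      rw [h3, abs_mul, abs_of_pos (t0 k), ← e12 k]
      have := mul_le_mul_of_nonneg_left (cb _ (dz i).1 (dz i).2 (m1 i) x hx k) (t0 k).le
      linarith
    have b2 : ∀ i j, ∀ x ∈ ball x₀ R,
        |fderiv ℝ (fun x => fderiv ℝ (w k) x (bv i)) x (bv j)| ≤ M * C * t k ^ (s - 2) := by
      intro i j x hx
      rw [w2]
      exact cb _ (dz2 i j).1 (dz2 i j).2 (m2 i j) x hx k
    have c1 : ∀ i, ContDiff ℝ ∞ (fun x => fderiv ℝ (w k) x (bv i)) := fun i =>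
      ((w0 k).fderiv_right (m := ∞) (by norm_num)).clm_apply contDiff_const
    refine ⟨fun x hx => ⟨?_, ((w0 k).differentiable (by simp)).differentiableAt⟩, fun i =>
      ⟨fun x hx => ?_, fun y hy z hz => ?_⟩⟩
    · rw [hwd, Real.norm_eq_abs, abs_mul, abs_of_pos (pow_pos (t0 k) 2)]
      have h3 := mul_le_mul_of_nonneg_left (cb _ K.sζ K.zζ m0 x hx k) (pow_pos (t0 k) 2).le
      refine h3.trans ?_
      have h4 : t k ^ 2 * (M * C * t k ^ (s - 2)) = M * C * (t k * t k ^ (s - 1)) := by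
        rw [← e12 k]; ring
      rw [h4, hD]
      have h5 : t k * t k ^ (s - 1) ≤ (1 + R) * ((1 + R) * t k ^ γ) := by
        refine mul_le_mul ?_ (ts1 k) (Real.rpow_nonneg (t0 k).le _) (by linarith)
        linarith [tR k]
      have h6 := mul_le_mul_of_nonneg_left h5 hMC
      have h7 : 0 ≤ M * C * ((1 + R) * ((1 + R) * t k ^ γ)) := by positivity
      have h8 : (0 : ℝ) ≤ n := Nat.cast_nonneg n
      nlinarith [mul_nonneg h7 h8]
    · rw [Real.norm_eq_abs]
      refine (b1 i x hx).trans ?_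
      rw [hD]
      have h6 := mul_le_mul_of_nonneg_left (ts1 k) hMC
      have h7 : 0 ≤ M * C * ((1 + R) * t k ^ γ) := by positivity
      have h8 : (0 : ℝ) ≤ n := Nat.cast_nonneg n
      nlinarith [mul_nonneg h7 h8, mul_nonneg h7 hR.le, mul_nonneg (mul_nonneg h7 hR.le) h8]
    · have h3 : ‖fderiv ℝ (w k) y (bv i) - fderiv ℝ (w k) z (bv i)‖ ≤
          2 * (n + 1) * (M * C) * t k ^ (s - 1) := by
        refine (norm_sub_le _ _).trans ?_
        have h4 := b1 i y hy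
        have h5 := b1 i z hz
        rw [Real.norm_eq_abs, Real.norm_eq_abs]
        have h6 : 0 ≤ M * C * t k ^ (s - 1) := mul_nonneg hMC (Real.rpow_nonneg (t0 k).le _)
        have h8 : (0 : ℝ) ≤ n := Nat.cast_nonneg n
        nlinarith [mul_nonneg h6 h8]
      have h4 : ‖fderiv ℝ (w k) y (bv i) - fderiv ℝ (w k) z (bv i)‖ ≤
          (n + 1) * (M * C) * t k ^ (s - 2) * ‖y - z‖ := by
        have h5 := (convex_ball x₀ R).norm_image_sub_le_of_norm_fderiv_le
          (f := fun x => fderiv ℝ (w k) x (bv i)) (C := n * (M * C * t k ^ (s - 2)))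
          (fun x _ => ((c1 i).differentiable (by simp)).differentiableAt)
          (fun x hx => PC1.norm_le _ (mul_nonneg hMC (Real.rpow_nonneg (t0 k).le _))
            fun j => by rw [Real.norm_eq_abs]; exact b2 i j x hx) hz hy
        refine h5.trans ?_
        refine mul_le_mul_of_nonneg_right ?_ (norm_nonneg _)
        have h6 : 0 ≤ M * C * t k ^ (s - 2) := mul_nonneg hMC (Real.rpow_nonneg (t0 k).le _)
        nlinarith
      have h5 := PC1.interp (t0 k) (norm_nonneg (y - z)) hs1 hs2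
        (B := (n + 1) * (M * C)) (by positivity) (by linarith) h4
      rw [← hγ] at h5
      change ‖fderiv ℝ (w k) y (bv i) - fderiv ℝ (w k) z (bv i)‖ ≤ _
      refine h5.trans ?_
      refine mul_le_mul_of_nonneg_right ?_ (Real.rpow_nonneg (norm_nonneg _) _)
      rw [hD]
      refine mul_le_mul_of_nonneg_right ?_ pk
      have h8 : (0 : ℝ) ≤ n := Nat.cast_nonneg n
      have h9 : 0 ≤ M * C * (n + 1) := by positivity
      nlinarith [mul_nonneg h9 hR.le, mul_nonneg h9 (sq_nonneg R)]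
  -- the series
  have hsum : Summable fun k => D * t k ^ γ := by
    have h3 : (fun k => D * t k ^ γ) = fun k : ℕ => (D * R ^ γ) * ((1 / 2 : ℝ) ^ γ) ^ k := by
      funext k
      have h4 : t k = R * (1 / 2) ^ k := by
        rw [ht]
        simp only
        rw [one_div, inv_pow]
        rfl
      rw [h4, Real.mul_rpow hR.le (by positivity), ← Real.rpow_natCast (1 / 2 : ℝ) k,
        ← Real.rpow_natCast ((1 / 2 : ℝ) ^ γ) k, ← Real.rpow_mul (by norm_num),
        ← Real.rpow_mul (by norm_num), mul_comm (k : ℝ) γ]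
      ring
    rw [h3]
    exact (summable_geometric_of_lt_one (Real.rpow_nonneg (by norm_num) _)
      (Real.rpow_lt_one (by norm_num) (by norm_num) hγ0)).mul_left _
  obtain ⟨s1, s2⟩ := hSER n ℝ γ (fun k => D * t k ^ γ) x₀ R hγ0 hγ1 hsum 1 w hsB
  have s3 := (h0 n ℝ 1).2.2.2 _ x₀ R γ _ hγ0 hγ1 s2
  -- the representation
  have part : ∀ x ∈ ball x₀ R, ∀ K' : ℕ, H86.RG.cv (dil φ (R / 2 ^ K')) v x =
      H86.RG.cv (dil φ R) v x - ∑ k ∈ Finset.range K', w k x := by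
    intro x hx K'
    induction K' with
    | zero => simp
    | succ K' ih =>
      have h3 := hREP n φ ζ K v g x₀ R hvi hgi hw x hx (t K') (t0 K') (tR K')
      have h4 : R / 2 ^ (K' + 1) = t K' / 2 := by
        rw [ht]
        simp only
        rw [pow_succ]
        field_simp
      have h5 : H86.RG.cv (dil φ (t K')) v x = H86.RG.cv (dil φ (R / 2 ^ K')) v x := by rw [ht]
      rw [h4, h3, h5, ih, Finset.sum_range_succ]
      have h6 : H86.RG.cv (dil ζ (t K')) g x = H86.RG.cv (dil ζ (t K')) g' x := by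
        rw [hg']
        exact hTRC n ζ g x₀ R (t K') (t0 K') (tR K') K.zζ x hx
      rw [h6, hwd]
      ring
  have repr : ∀ x ∈ ball x₀ R, v x = H86.RG.cv (dil φ R) v' x + (-1 : ℝ) * ∑' k, w k x := by
    intro x hx
    have hR0 : Tendsto (fun k : ℕ => R / 2 ^ k) atTop (𝓝[>] 0) := by
      refine tendsto_nhdsWithin_iff.2 ⟨?_, Eventually.of_forall fun k => ?_⟩
      · have h4 := (tendsto_pow_atTop_nhds_zero_of_lt_one (r := (1 / 2 : ℝ)) (by norm_num)
          (by norm_num)).const_mul R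
        rw [mul_zero] at h4
        refine h4.congr fun k => ?_
        rw [one_div, inv_pow]
        rfl
      · exact mem_Ioi.2 (by positivity)
    have h3 := ((hLM n φ ζ K v _ isOpen_ball hvi).2 hvc x
      (ball_subset_ball (by linarith) hx)).comp hR0
    have h4 : Tendsto (fun K' : ℕ => H86.RG.cv (dil φ (R / 2 ^ K')) v x) atTop
        (𝓝 (H86.RG.cv (dil φ R) v x - ∑' k, w k x)) := by
      have h5 := (s1 x hx).hasSum.tendsto_sum_nat
      have h6 := (tendsto_const_nhds (x := H86.RG.cv (dil φ R) v x)).sub h5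
      refine h6.congr fun K' => ?_
      exact (part x hx K').symm
    have h7 := tendsto_nhds_unique h3 h4
    have h8 : H86.RG.cv (dil φ R) v x = H86.RG.cv (dil φ R) v' x := by
      rw [hv']
      exact hTRC n φ v x₀ R R hR le_rfl K.zφ x hx
    rw [h7, h8]
    ring
  have f1 : HH 1 (H86.RG.cv (dil φ R) v') (ball x₀ R) :=
    (h2 n ℝ _ _ isOpen_ball).2 (hDCV n φ v' R hR K.sφ K.zφ hv'i).1.contDiffOn 1
  have f2 := (h1 n ℝ ℝ 1 _ isOpen_ball).2.2 ((-1 : ℝ) • ContinuousLinearMap.id ℝ ℝ) _ s3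
  have f3 := (h1 n ℝ ℝ 1 _ isOpen_ball).1 _ _ f1 f2
  refine (h0 n ℝ 1).2.1 _ _ _ isOpen_ball (fun x hx => ?_) f3
  rw [repr x hx]
  rfl

end Pool.Agent.H70.RG
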